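import Pool.Agent.Helper15.BR.Defs

/-!
# BR, FRONT, W2: the matrix of the two sided multiplications
-/

set_option autoImplicit false

namespace Pool.Agent.Helper81.BR

open Pool.Agent.Helper15.BR

section

variable {R A : Type*} [CommRing R] [Ring A] [Algebra R A] {D : ℕ}

theorem mul_mul_eq (e : Module.Basis (Fin D) R A) (c : SC R D)
    (hc : ∀ a b, e a * e b = ∑ d, c a b d • e d) (a u b : Fin D) :
    e a * e u * e b = ∑ d, LR c (a, b) (u, d) • e d := by
  rw [hc, Finset.sum_mul]
  simp only [smul_mul_assoc, hc, Finset.smul_sum, smul_smul]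
  rw [Finset.sum_comm]
  refine Finset.sum_congr rfl fun d _ => ?_
  rw [← Finset.sum_smul]
  rfl

theorem sum_mul_mul_eq (e : Module.Basis (Fin D) R A) (c : SC R D)
    (hc : ∀ a b, e a * e b = ∑ d, c a b d • e d) (v : Fin D × Fin D → R) (u : Fin D) :
    ∑ b, (∑ a, v (a, b) • e a) * e u * e b = ∑ d, (Matrix.vecMul v (LR c) (u, d)) • e d := by
  have h4 : ∑ b, (∑ a, v (a, b) • e a) * e u * e b =
      ∑ b, ∑ d, ∑ a, (v (a, b) * LR c (a, b) (u, d)) • e d := by
    refine Finset.sum_congr rfl fun b _ => ?_
    rw [Finset.sum_mul, Finset.sum_mul, Finset.sum_comm]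
    refine Finset.sum_congr rfl fun a _ => ?_
    rw [smul_mul_assoc, smul_mul_assoc, mul_mul_eq e c hc, Finset.smul_sum]
    exact Finset.sum_congr rfl fun d _ => by rw [smul_smul]
  rw [h4, Finset.sum_comm]
  refine Finset.sum_congr rfl fun d _ => ?_
  rw [Matrix.vecMul, dotProduct, Fintype.sum_prod_type, Finset.sum_comm, Finset.sum_smul]
  exact Finset.sum_congr rfl fun b _ => by rw [Finset.sum_smul]

/-- every endomorphism is a sum of two sided multiplications -/
theorem exists_coeff (e : Module.Basis (Fin D) R A) (c : SC R D)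
    (hc : ∀ a b, e a * e b = ∑ d, c a b d • e d) (hdet : IsUnit (LR c).det) (T : A →ₗ[R] A) :
    ∃ t : Fin D → Fin D → R, ∀ x, T x = ∑ a, ∑ b, t a b • (e a * x * e b) := by
  classical
  set w : Fin D × Fin D → R := fun y => e.repr (T (e y.1)) y.2 with hw
  set v : Fin D × Fin D → R := Matrix.vecMul w (LR c)⁻¹ with hv
  have hvM : Matrix.vecMul v (LR c) = w := by
    rw [hv, Matrix.vecMul_vecMul, Matrix.nonsing_inv_mul _ hdet, Matrix.vecMul_one]
  refine ⟨fun a b => v (a, b), fun x => ?_⟩
  let S : A →ₗ[R] A := ∑ a, ∑ b, v (a, b) •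
    (LinearMap.mulLeft R (e a) ∘ₗ LinearMap.mulRight R (e b))
  have hS : ∀ x, S x = ∑ a, ∑ b, v (a, b) • (e a * x * e b) := by
    intro x
    simp only [S, LinearMap.sum_apply, LinearMap.smul_apply, LinearMap.comp_apply,
      LinearMap.mulLeft_apply, LinearMap.mulRight_apply, mul_assoc]
  have hTS : T = S := by
    refine e.ext fun u => ?_
    have h1 := sum_mul_mul_eq e c hc v u
    rw [hvM] at h1
    have h2 : ∑ d, w (u, d) • e d = T (e u) := e.sum_repr (T (e u))
    rw [← h2, ← h1, hS]
    simp only [Finset.sum_mul, smul_mul_assoc]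
    rw [Finset.sum_comm]
  rw [hTS, hS]

end

section

variable {k A : Type*} [Field k] [Ring A] [Algebra k A]

/-- two sided independence in a central simple algebra -/
theorem eq_zero_of_sum [IsSimpleRing A] [Algebra.IsCentral k A] {D : ℕ} (b : Fin D → A)
    (hb : LinearIndependent k b) (s : Finset (Fin D)) :
    ∀ a : Fin D → A, (∀ i, i ∉ s → a i = 0) → (∀ x : A, ∑ i, a i * x * b i = 0) → a = 0 := by
  classical
  induction s using Finset.induction_on with
  | empty =>
    intro a ha _
    funext i
    exact ha i (Finset.notMem_empty i)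
  | insert j s hj ih =>
    intro a ha hrel
    by_cases haj : a j = 0
    · refine ih a (fun i hi => ?_) hrel
      rcases eq_or_ne i j with rfl | hij
      · exact haj
      · exact ha i (by simp [hij, hi])
    · exfalso
      let J : TwoSidedIdeal A := TwoSidedIdeal.mk'
        {y : A | ∃ a' : Fin D → A, (∀ i, i ∉ insert j s → a' i = 0) ∧
          (∀ x : A, ∑ i, a' i * x * b i = 0) ∧ a' j = y}
        ⟨0, fun _ _ => rfl, fun x => by simp, rfl⟩
        (by
          rintro y z ⟨a1, h1, h2, h3⟩ ⟨a2, h4, h5, h6⟩
          refine ⟨a1 + a2, fun i hi => by simp [h1 i hi, h4 i hi], fun x => ?_, by simp [h3, h6]⟩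
          have : ∑ i, (a1 + a2) i * x * b i = ∑ i, a1 i * x * b i + ∑ i, a2 i * x * b i := by
            rw [← Finset.sum_add_distrib]
            exact Finset.sum_congr rfl fun i _ => by rw [Pi.add_apply]; noncomm_ring
          rw [this, h2, h5, add_zero])
        (by
          rintro y ⟨a1, h1, h2, h3⟩
          refine ⟨-a1, fun i hi => by simp [h1 i hi], fun x => ?_, by simp [h3]⟩
          have : ∑ i, (-a1) i * x * b i = -∑ i, a1 i * x * b i := by
            rw [← Finset.sum_neg_distrib]
            exact Finset.sum_congr rfl fun i _ => by rw [Pi.neg_apply]; noncomm_ring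
          rw [this, h2, neg_zero])
        (by
          rintro p y ⟨a1, h1, h2, h3⟩
          refine ⟨fun i => p * a1 i, fun i hi => by simp [h1 i hi], fun x => ?_, by simp [h3]⟩
          have : ∑ i, p * a1 i * x * b i = p * ∑ i, a1 i * x * b i := by
            rw [Finset.mul_sum]
            exact Finset.sum_congr rfl fun i _ => by noncomm_ring
          rw [this, h2, mul_zero])
        (by
          rintro y q ⟨a1, h1, h2, h3⟩
          refine ⟨fun i => a1 i * q, fun i hi => by simp [h1 i hi], fun x => ?_, by simp [h3]⟩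
          have : ∑ i, a1 i * q * x * b i = ∑ i, a1 i * (q * x) * b i :=
            Finset.sum_congr rfl fun i _ => by noncomm_ring
          rw [this, h2])
      have hmem : a j ∈ J := by
        rw [TwoSidedIdeal.mem_mk']
        exact ⟨a, ha, hrel, rfl⟩
      have h1 : (1 : A) ∈ J := IsSimpleRing.one_mem_of_ne_zero_mem J haj hmem
      rw [TwoSidedIdeal.mem_mk'] at h1
      obtain ⟨a', h2, h3, h4⟩ := h1
      have hcomm : ∀ y : A, ∀ i, y * a' i = a' i * y := by
        intro y i
        have h5 := ih (fun i => y * a' i - a' i * y) (fun i hi => by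
          rcases eq_or_ne i j with rfl | hij
          · simp [h4]
          · have : a' i = 0 := h2 i (by simp [hij, hi])
            simp [this]) (fun x => by
          have h6 : ∑ i, (y * a' i - a' i * y) * x * b i =
              y * ∑ i, a' i * x * b i - ∑ i, a' i * (y * x) * b i := by
            rw [Finset.mul_sum, ← Finset.sum_sub_distrib]
            exact Finset.sum_congr rfl fun i _ => by noncomm_ring
          rw [h6, h3, h3, mul_zero, sub_zero])
        have h7 := congrFun h5 i
        simpa [sub_eq_zero] using h7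
      have hcen : ∀ i, ∃ r : k, a' i = algebraMap k A r := by
        intro i
        have h8 : a' i ∈ Subalgebra.center k A :=
          Subalgebra.mem_center_iff.2 fun y => hcomm y i
        have h9 := Algebra.IsCentral.out (K := k) (D := A) h8
        obtain ⟨r, hr⟩ := Algebra.mem_bot.1 h9
        exact ⟨r, hr.symm⟩
      choose r hr using hcen
      have h10 : ∑ i, r i • b i = 0 := by
        have := h3 1
        rw [← this]
        refine Finset.sum_congr rfl fun i _ => ?_
        rw [hr, mul_one, Algebra.smul_def]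
      have h11 := Fintype.linearIndependent_iff.1 hb r h10 j
      rw [hr j, h11, map_zero] at h4
      exact zero_ne_one h4

/-- **W2.** The matrix is invertible for a central simple algebra. -/
theorem LR_det_ne_zero [IsSimpleRing A] [Algebra.IsCentral k A] {D : ℕ}
    (e : Module.Basis (Fin D) k A) (c : SC k D)
    (hc : ∀ a b, e a * e b = ∑ d, c a b d • e d) : (LR c).det ≠ 0 := by
  classical
  intro h0
  obtain ⟨v, hv, hv0⟩ := Matrix.exists_vecMul_eq_zero_iff.2 h0
  apply hv
  have key := eq_zero_of_sum (k := k) (fun b => e b) e.linearIndependent Finset.univ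
    (fun b => ∑ a, v (a, b) • e a) (fun i hi => absurd (Finset.mem_univ i) hi) (by
      intro x
      have hx : ∀ u, ∑ b, (∑ a, v (a, b) • e a) * e u * e b = 0 := by
        intro u
        rw [sum_mul_mul_eq e c hc, hv0]
        simp
      rw [← e.sum_repr x]
      simp only [Finset.mul_sum, Finset.sum_mul, mul_smul_comm, smul_mul_assoc]
      rw [Finset.sum_comm]
      refine Finset.sum_eq_zero fun u _ => ?_
      rw [← Finset.smul_sum]
      have h2 := hx u
      simp only [Finset.sum_mul, smul_mul_assoc] at h2
      rw [h2, smul_zero])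
  funext ⟨a, b⟩
  have h3 := congrFun key b
  exact Fintype.linearIndependent_iff.1 e.linearIndependent (fun a => v (a, b)) h3 a

theorem exists_dual_eq_one {x : A} (hx : x ≠ 0) : ∃ f : A →ₗ[k] k, f x = 1 := by
  obtain ⟨f, hf⟩ : ∃ f : A →ₗ[k] k, f x ≠ 0 := by
    by_contra hcon
    push Not at hcon
    exact hx ((Module.forall_dual_apply_eq_zero_iff k x).1 hcon)
  refine ⟨(f x)⁻¹ • f, ?_⟩
  rw [LinearMap.smul_apply, smul_eq_mul, inv_mul_cancel₀ hf]

/-- **W2, converse.** -/
theorem simple_central_of_LR [Nontrivial A] {D : ℕ} (e : Module.Basis (Fin D) k A) (c : SC k D)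
    (hc : ∀ a b, e a * e b = ∑ d, c a b d • e d) (hdet : (LR c).det ≠ 0) :
    IsSimpleRing A ∧ Algebra.IsCentral k A := by
  classical
  have hex := exists_coeff e c hc (isUnit_iff_ne_zero.2 hdet)
  constructor
  · refine IsSimpleRing.of_eq_bot_or_eq_top fun I => ?_
    by_cases hI : I = ⊥
    · exact Or.inl hI
    · right
      obtain ⟨x, hx, hx0⟩ : ∃ x ∈ I, x ≠ 0 := by
        by_contra hcon
        push Not at hcon
        exact hI (le_bot_iff.1 fun x hx => by
          rw [TwoSidedIdeal.mem_bot]
          exact hcon x hx)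
      obtain ⟨f, hf⟩ := exists_dual_eq_one (k := k) hx0
      obtain ⟨t, ht⟩ := hex (f.smulRight 1)
      have h1 : (1 : A) ∈ I := by
        have h2 := ht x
        rw [LinearMap.smulRight_apply, hf, one_smul] at h2
        rw [h2]
        refine sum_mem fun a _ => sum_mem fun b _ => ?_
        have h3 : t a b • (e a * x * e b) = (t a b • e a) * x * e b := by
          rw [smul_mul_assoc, smul_mul_assoc]
        rw [h3]
        exact I.mul_mem_right _ _ (I.mul_mem_left _ _ hx)
      exact top_le_iff.1 fun y _ => by
        have := I.mul_mem_left y 1 h1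
        rwa [mul_one] at this
  · refine ⟨fun z hz => ?_⟩
    rw [Subalgebra.mem_center_iff] at hz
    obtain ⟨f, hf⟩ := exists_dual_eq_one (k := k) (one_ne_zero (α := A))
    obtain ⟨t, ht⟩ := hex (f.smulRight 1)
    have h1 : ∀ x, f.smulRight (1 : A) (x * z) = f.smulRight (1 : A) x * z := by
      intro x
      rw [ht, ht, Finset.sum_mul]
      refine Finset.sum_congr rfl fun a _ => ?_
      rw [Finset.sum_mul]
      refine Finset.sum_congr rfl fun b _ => ?_
      rw [smul_mul_assoc, mul_assoc (e a * x) (e b) z, hz (e b)]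
      noncomm_ring
    have h2 := h1 1
    rw [one_mul, LinearMap.smulRight_apply, LinearMap.smulRight_apply, hf, one_smul, one_mul]
      at h2
    rw [Algebra.mem_bot]
    exact ⟨f z, by rw [Algebra.algebraMap_eq_smul_one]; exact h2⟩

end

end Pool.Agent.Helper81.BR
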